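import Mathlib
import Pool.Agent.R204.Lur.Lower

/-! MP_4648ce: every value in `(0, 1/2)` is the Hausdorff dimension of an asymptotic set of the
Lüroth map. -/

namespace Pool.Agent.Results.MP_4648ce_an.LurothSpectrum

open Set Filter Topology MeasureTheory R204.Lur
open scoped ENNReal

theorem attained {s : ℝ} (hs : 0 < s) (hs2 : s < 1 / 2) :
    ∃ x ∈ Icc (0 : ℝ) 1, dimH (AS x) = ENNReal.ofReal s := by
  have h1s : 0 < 1 - s := by linarith
  set lam := (1 - s) / s with hlam
  have hl1 : 1 < lam := by rw [hlam, lt_div_iff₀ hs]; linarith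
  have hl0 : 0 < lam := by linarith
  have hsl : s / (1 - s) * lam = 1 := by rw [hlam]; field_simp
  set τ : ℕ → ℕ := fun j => ⌊lam ^ j⌋₊ + 2 * j with hτd
  have hfl1 : ∀ j : ℕ, (⌊lam ^ j⌋₊ : ℝ) ≤ lam ^ j := fun j => Nat.floor_le (by positivity)
  have hfl2 : ∀ j : ℕ, lam ^ j < (⌊lam ^ j⌋₊ : ℝ) + 1 := fun j => Nat.lt_floor_add_one _
  have hmono : ∀ j : ℕ, ⌊lam ^ j⌋₊ ≤ ⌊lam ^ (j + 1)⌋₊ := fun j =>
    Nat.floor_mono (pow_le_pow_right₀ hl1.le (Nat.le_succ j))
  have hstep : ∀ j : ℕ, τ j + 2 ≤ τ (j + 1) := by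
    intro j
    have := hmono j
    simp only [hτd]
    omega
  have hτ : StrictMono τ := strictMono_nat_of_lt_succ fun j => by have := hstep j; omega
  set g : ℕ → ℕ := fun j => τ (j + 1) - τ j - 1 with hgd
  have hg : ∀ J, τ (J + 1) = τ J + g J + 1 := fun J => by
    have := hstep J
    simp only [hgd]
    omega
  have hg1 : ∀ J, 1 ≤ g J := fun J => by
    have := hstep J
    simp only [hgd]
    omega
  have hgl : ∀ J, (lam - 1) * lam ^ J ≤ g J := by
    intro J
    have h1 : (g J : ℝ) = τ (J + 1) - τ J - 1 := by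
      have : (τ (J + 1) : ℝ) = τ J + g J + 1 := by exact_mod_cast hg J
      linarith
    rw [h1]
    simp only [hτd]
    push_cast
    have := hfl1 J
    have := hfl2 (J + 1)
    rw [pow_succ] at this
    have e : lam ^ (J + 1) = lam ^ J * lam := pow_succ _ _
    rw [e]
    linarith
  set D : ℕ → ℕ := fun j => j + 2 with hD
  have hDl : Tendsto D atTop atTop := tendsto_add_atTop_nat 2
  have hx := pt_mem (sq_pos hτ (D := D) fun j => by simp [hD])
  refine ⟨pt (sq τ D), ⟨hx.1.le, hx.2⟩, le_antisymm ?_ ?_⟩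
  · exact upper hs hs2 hl1 hsl.ge hτ hg hgl fun j => by simp [hD]
  · -- lower bound
    apply le_of_forall_lt
    intro c hc
    obtain ⟨r, hr1, hr2⟩ := ENNReal.lt_iff_exists_nnreal_btwn.1 hc
    have hrs : (r : ℝ) < s := by
      have : ENNReal.ofReal r < ENNReal.ofReal s := by rwa [ENNReal.ofReal_coe_nnreal]
      exact (ENNReal.ofReal_lt_ofReal_iff hs).1 this
    have hr0 : (0 : ℝ) < r := by
      have : (0 : ℝ≥0∞) < r := lt_of_le_of_lt bot_le hr1
      exact_mod_cast this
    refine hr1.trans_le ?_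
    rw [← ENNReal.ofReal_coe_nnreal]
    set q : ℝ := (r : ℝ) with hq
    set δ := 1 - q - q * lam with hδ
    have hδ0 : 0 < δ := by
      have : q * (1 + lam) < s * (1 + lam) := by nlinarith
      have e : s * (1 + lam) = 1 := by rw [hlam]; field_simp; ring
      rw [hδ]; nlinarith
    have hlm : 0 < lam - 1 := by linarith
    set K := q * (1 + 4 / (lam - 1)) / δ with hK
    have hK0 : 0 < K := by positivity
    set b : ℕ → ℕ := fun j => ⌈K * (lam ^ j - 1)⌉₊ with hb
    have hbm : Monotone b := by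
      intro i j hij
      apply Nat.ceil_mono
      have : lam ^ i ≤ lam ^ j := pow_le_pow_right₀ hl1.le hij
      nlinarith
    have hb0 : b 0 = 0 := by simp [hb]
    have hc1 : ∀ j, K * (lam ^ j - 1) ≤ b j := fun j => Nat.le_ceil _
    have hnn : ∀ j : ℕ, 0 ≤ K * (lam ^ j - 1) := fun j => by
      have : 1 ≤ lam ^ j := one_le_pow₀ hl1.le
      nlinarith
    have hc2 : ∀ j, (b j : ℝ) < K * (lam ^ j - 1) + 1 := fun j => Nat.ceil_lt_add_one (hnn j)
    have hpl : Tendsto (fun j : ℕ => lam ^ j) atTop atTop := tendsto_pow_atTop_atTop_of_one_lt hl1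
    have hbl : Tendsto b atTop atTop := by
      rw [← tendsto_natCast_atTop_iff (R := ℝ)]
      refine tendsto_atTop_mono hc1 ?_
      exact (tendsto_atTop_add_const_right _ (-1) hpl).const_mul_atTop hK0
    have hbl2 : Tendsto (fun j => b (j + 1) - b j) atTop atTop := by
      rw [← tendsto_natCast_atTop_iff (R := ℝ)]
      refine tendsto_atTop_mono (f := fun j : ℕ => K * (lam - 1) * lam ^ j + (-1)) ?_ ?_
      · intro j
        rw [Nat.cast_sub (hbm (Nat.le_succ j))]
        have h1 := hc1 (j + 1)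
        have h2 := hc2 j
        have e : lam ^ (j + 1) = lam ^ j * lam := pow_succ _ _
        rw [e] at h1
        nlinarith
      · exact tendsto_atTop_add_const_right _ (-1) (hpl.const_mul_atTop (by positivity))
    refine lower hτ hg hbm hr0 (by linarith) hb0 hg1 hbl hbl2
      (cst := 1 + 4 * q + (1 - 2 * q) * K) ?_ (D := D) (fun j => by simp [hD]) hDl
    intro j
    have h1 := hc1 j
    have h2 := hc2 (j + 1)
    have e : lam ^ (j + 1) = lam ^ j * lam := pow_succ _ _
    rw [e] at h2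
    have hτj : (τ j : ℝ) ≤ lam ^ j + 2 * j := by
      simp only [hτd]
      push_cast
      linarith [hfl1 j]
    have hj : (j : ℝ) * (lam - 1) ≤ lam ^ j := by
      have := one_add_mul_le_pow (a := lam - 1) (by linarith) j
      rw [show 1 + (lam - 1) = lam by ring] at this
      linarith
    have hj' : (j : ℝ) ≤ lam ^ j / (lam - 1) := by rw [le_div_iff₀ hlm]; exact hj
    have hKδ : K * δ = q * (1 + 4 / (lam - 1)) := by rw [hK]; field_simp
    have h5 : q * (lam ^ j + 4 * j) ≤ K * δ * lam ^ j := by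
      rw [hKδ]
      have : lam ^ j + 4 * j ≤ (1 + 4 / (lam - 1)) * lam ^ j := by
        have e2 : (1 + 4 / (lam - 1)) * lam ^ j = lam ^ j + 4 * (lam ^ j / (lam - 1)) := by ring
        rw [e2]; linarith
      nlinarith
    have h6 : q * b (j + 1) ≤ q * (K * (lam ^ j * lam - 1) + 1) :=
      mul_le_mul_of_nonneg_left h2.le hr0.le
    have h7 : (1 - q) * (K * (lam ^ j - 1)) ≤ (1 - q) * b j :=
      mul_le_mul_of_nonneg_left h1 (by linarith)
    have h8 : q * (τ j + 2 * j + 3) ≤ q * (lam ^ j + 4 * j + 3) :=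
      mul_le_mul_of_nonneg_left (by linarith) hr0.le
    have h9 : K * δ * lam ^ j = (1 - q) * (K * lam ^ j) - q * (K * (lam ^ j * lam)) := by
      rw [hδ]; ring
    nlinarith

/-- **Main theorem.** `Lu` is the Lüroth map of the problem, and every number in `(0, 1/2)` is the
Hausdorff dimension of `AS x = {y ∈ [0,1] : |L^n x - L^n y| → 0}` for some `x ∈ [0,1]`. -/
theorem result :
    (Lu 0 = 0 ∧ ∀ n : ℕ, 1 ≤ n → ∀ x ∈ Ioc (1 / ((n : ℝ) + 1)) (1 / n), Lu x = n * (n + 1) * x - n) ∧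
    (∀ x : ℝ, AS x = {y | y ∈ Icc (0 : ℝ) 1 ∧
      Tendsto (fun n : ℕ => |Lu^[n] x - Lu^[n] y|) atTop (𝓝 0)}) ∧
    ∀ s ∈ Ioo (0 : ℝ) (1 / 2), ∃ x ∈ Icc (0 : ℝ) 1, dimH (AS x) = ENNReal.ofReal s :=
  ⟨⟨Lu_zero, fun _ hn _ hx => Lu_spec hn hx⟩, fun _ => rfl, fun _ hs => attained hs.1 hs.2⟩

end Pool.Agent.Results.MP_4648ce_an.LurothSpectrum
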